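import Mathlib
import Pool.Agent.H308R3.Perc.M
import Pool.Agent.H308R3.Perc.F

open MeasureTheory ProbabilityTheory Set Filter Topology
open scoped ENNReal NNReal

namespace Pool.Agent.Results.MP_9aa340_pr.EveryGroup

/-- A generating measure on the group `Γ`: a probability measure (given by its point masses) that
is symmetric and whose support generates `Γ` as a group. -/
structure GeneratingMeasure (Γ : Type) [Group Γ] where
  /-- the point masses -/
  mass : PMF Γ
  symm : ∀ g : Γ, mass g⁻¹ = mass g
  generates : Subgroup.closure mass.support = ⊤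

/-- The weight `μ(g⁻¹ h)` of the unordered pair `{g, h}`. -/
noncomputable def weight {Γ : Type} [Group Γ] (μ : GeneratingMeasure Γ) : Sym2 Γ → ℝ≥0 :=
  Sym2.lift ⟨fun g h => (μ.mass (g⁻¹ * h)).toNNReal, fun g h => by
    have := μ.symm (g⁻¹ * h)
    rw [mul_inv_rev, inv_inv] at this
    change (μ.mass (g⁻¹ * h)).toNNReal = (μ.mass (h⁻¹ * g)).toNNReal
    rw [this]⟩

/-- The law of the numbers of parallel edges: independent Poisson variables with mean
`lam * μ(g⁻¹ h)`, one for each unordered pair `{g, h}` (the pairs `{g, g}` are not used by the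
graph below). -/
noncomputable def law {Γ : Type} [Group Γ] (μ : GeneratingMeasure Γ) (lam : ℝ≥0) :
    Measure (Sym2 Γ → ℕ) :=
  Measure.infinitePi fun e => poissonMeasure (lam * weight μ e)

/-- The random graph `Γ_μ(lam)` with parallel edges merged: distinct `g, h` are adjacent when the
number `ω {g, h}` of edges joining them is positive. -/
def graph {Γ : Type} (ω : Sym2 Γ → ℕ) : SimpleGraph Γ where
  Adj g h := g ≠ h ∧ 0 < ω s(g, h)
  symm := ⟨fun g h hgh => ⟨hgh.1.symm, by rw [Sym2.eq_swap]; exact hgh.2⟩⟩
  loopless := ⟨fun _ h => h.1 rfl⟩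

/-- The event that there is an infinite connected component. -/
def InfiniteComponent (Γ : Type) : Set (Sym2 Γ → ℕ) :=
  {ω | ∃ g : Γ, {h : Γ | (graph ω).Reachable g h}.Infinite}

/-- The critical parameter
`lam_c(μ) = sup {lam > 0 : P(Γ_μ(lam) has an infinite component) = 0}` in `[0, ∞]`. -/
noncomputable def criticalParameter {Γ : Type} [Group Γ] (μ : GeneratingMeasure Γ) : ℝ≥0∞ :=
  sSup {x : ℝ≥0∞ | ∃ lam : ℝ≥0, 0 < lam ∧ law μ lam (InfiniteComponent Γ) = 0 ∧ x = lam}

/-- Every countably infinite group admits a generating measure with finite critical parameter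
for long-range percolation. -/
theorem result (Γ : Type) [Group Γ] [Countable Γ] [Infinite Γ] :
    ∃ μ : GeneratingMeasure Γ, criticalParameter μ < ⊤ := by
  classical
  obtain ⟨D, A, h0, hA⟩ := H308R3.Perc.exists_scales Γ
  obtain ⟨e, he⟩ := exists_surjective_nat Γ
  have hS := fun k => (hA k).1
  have hc := fun k => (hA k).2
  have hF0 : ∑' g, H308R3.Perc.F A e g ≠ 0 := by
    intro h
    rw [ENNReal.tsum_eq_zero] at h
    exact H308R3.Perc.F_pos A e he 1 (h 1)
  have hF1 := H308R3.Perc.F_sum A hc e
  let p : PMF Γ := PMF.normalize (H308R3.Perc.F A e) hF0 hF1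
  have hp : ∀ g, p g = H308R3.Perc.F A e g * (∑' x, H308R3.Perc.F A e x)⁻¹ := fun g => PMF.normalize_apply hF0 hF1 g
  let μ : GeneratingMeasure Γ :=
    { mass := p
      symm := fun g => by rw [hp, hp, H308R3.Perc.F_inv]
      generates := by
        rw [eq_top_iff]
        intro g _
        apply Subgroup.subset_closure
        rw [PMF.mem_support_iff, hp]
        exact mul_ne_zero (H308R3.Perc.F_pos A e he g) (ENNReal.inv_ne_zero.mpr hF1) }
  refine ⟨μ, ?_⟩
  set M : ℝ := (∑' x, H308R3.Perc.F A e x).toReal with hM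
  have hM0 : 0 < M := ENNReal.toReal_pos hF0 hF1
  have hcp : criticalParameter μ ≤ ENNReal.ofReal (6 * M) := by
    apply sSup_le
    rintro x ⟨lam, hlam, hzero, rfl⟩
    by_contra hcon
    rw [not_le] at hcon
    have hlam2 : 6 * M < lam := by
      have : ENNReal.ofReal (6 * M) < ENNReal.ofReal (lam : ℝ) := by
        rwa [ENNReal.ofReal_coe_nnreal]
      exact (ENNReal.ofReal_lt_ofReal_iff_of_nonneg (by positivity)).mp this
    -- edge probabilities
    have hν : ∀ k, ∃ δ : ℝ≥0∞, (∀ a ∈ A k, ∀ c : Γ,
        poissonMeasure (lam * weight μ s(c, c * a)) {0} ≤ δ) ∧ δ ^ 2 ^ k ≤ 1 / 2 := by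
      intro k
      refine ⟨ENNReal.ofReal (Real.exp (-(lam * ((3 / 4) ^ k / (3 * (k + 2)) / M)))), ?_, ?_⟩
      · intro a ha c
        rw [poissonMeasure_singleton]
        apply ENNReal.ofReal_le_ofReal
        simp only [pow_zero, mul_one, Nat.factorial_zero, Nat.cast_one, div_one]
        apply Real.exp_le_exp.mpr
        rw [neg_le_neg_iff, NNReal.coe_mul]
        apply mul_le_mul_of_nonneg_left _ lam.2
        have hw : weight μ s(c, c * a) = (p a).toNNReal := by
          change (μ.mass (c⁻¹ * (c * a))).toNNReal = _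
          rw [inv_mul_cancel_left]
        rw [hw]
        change _ ≤ (p a).toReal
        rw [hp, ENNReal.toReal_mul, ENNReal.toReal_inv, ← div_eq_mul_inv]
        apply div_le_div_of_nonneg_right _ hM0.le
        rw [← ENNReal.ofReal_le_iff_le_toReal]
        · exact H308R3.Perc.F_ge_A A e k ha
        · exact ne_top_of_le_ne_top hF1 (ENNReal.le_tsum a)
      · rw [← ENNReal.ofReal_pow (Real.exp_pos _).le, ← Real.exp_nat_mul]
        have hk : ((k : ℝ) + 2) ≤ 2 * (3 / 2) ^ k := by
          induction k with
          | zero => norm_num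
          | succ k ih =>
            rw [pow_succ]
            push_cast
            have : (2 : ℝ) ≤ 2 * (3 / 2) ^ k := by
              have : (1 : ℝ) ≤ (3 / 2) ^ k := one_le_pow₀ (by norm_num)
              linarith
            linarith
        have h1 : 1 ≤ ((2 ^ k : ℕ) : ℝ) * (lam * ((3 / 4) ^ k / (3 * (k + 2)) / M)) := by
          have e1 : ((2 ^ k : ℕ) : ℝ) * (lam * ((3 / 4) ^ k / (3 * (k + 2)) / M)) =
              lam * (3 / 2) ^ k / (3 * (k + 2) * M) := by
            push_cast
            rw [show (3 / 2 : ℝ) ^ k = 2 ^ k * (3 / 4) ^ k by rw [← mul_pow]; norm_num]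
            field_simp
          rw [e1, le_div_iff₀ (by positivity)]
          have h2 : (0 : ℝ) < (3 / 2) ^ k := by positivity
          calc 1 * (3 * ((k : ℝ) + 2) * M) ≤ 3 * (2 * (3 / 2) ^ k) * M := by
                rw [one_mul]
                gcongr
            _ = (6 * M) * (3 / 2) ^ k := by ring
            _ ≤ lam * (3 / 2) ^ k := by gcongr
        have h3 : Real.exp (((2 ^ k : ℕ) : ℝ) * -(lam * ((3 / 4) ^ k / (3 * (k + 2)) / M))) ≤
            1 / 2 := by
          calc Real.exp (((2 ^ k : ℕ) : ℝ) * -(lam * ((3 / 4) ^ k / (3 * (k + 2)) / M)))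
              ≤ Real.exp (-1) := by
                apply Real.exp_le_exp.mpr
                linarith
            _ ≤ 1 / 2 := by
                rw [Real.exp_neg, one_div]
                apply inv_anti₀ (by norm_num)
                have := Real.add_one_le_exp (1 : ℝ)
                linarith
        calc ENNReal.ofReal (Real.exp (((2 ^ k : ℕ) : ℝ) *
              -(lam * ((3 / 4) ^ k / (3 * (k + 2)) / M)))) ≤ ENNReal.ofReal (1 / 2) :=
              ENNReal.ofReal_le_ofReal h3
          _ = 1 / 2 := by
              rw [ENNReal.ofReal_div_of_pos (by norm_num)]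
              simp
    have h1 := H308R3.Perc.lim_ge h0 hS hc
      (fun e => poissonMeasure (lam * weight μ e)) hν
    have h2 : H308R3.Perc.Lim D ⊆ InfiniteComponent Γ := by
      intro ω hω
      refine ⟨1, ?_⟩
      refine H308R3.Perc.lim_infinite D ω hω (fun x => (graph ω).Reachable 1 x)
        (SimpleGraph.Reachable.refl 1) ?_
      intro x y hx hxy
      by_cases hxy' : x = y
      · exact hxy' ▸ hx
      · exact hx.trans (SimpleGraph.Adj.reachable ⟨hxy', Nat.pos_of_ne_zero hxy⟩)
    have h3 : (1 / 2 : ℝ≥0∞) ≤ law μ lam (InfiniteComponent Γ) := h1.trans (measure_mono h2)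
    rw [hzero] at h3
    norm_num at h3
  exact lt_of_le_of_lt hcp ENNReal.ofReal_lt_top

end Pool.Agent.Results.MP_9aa340_pr.EveryGroup
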